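import Mathlib
import Pool.Agent.R170.UniMain

/-!
# A unistable polyhedron whose resting face is the face of least diameter

There is a convex polyhedron in Euclidean 3-space (with 25 faces) which, as a solid of uniform
density, is stable on exactly one face, and this face has smaller diameter than every other face.
-/

namespace Pool.Agent.Results.MP_5eb3ac_co.LeastDiameter

open Pool.Agent.R170.Uni

theorem result : ∃ P F₀ : Set E3, IsPolyhedron P ∧ IsRestingFace P F₀ ∧
    ∀ F : Set E3, IsFace2 P F → F ≠ F₀ → Metric.diam F₀ < Metric.diam F :=
  ⟨body, facet 0, body_polyhedron, body_resting, fun _ hF hne => body_diam hF hne⟩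

end Pool.Agent.Results.MP_5eb3ac_co.LeastDiameter
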